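import Pool.Agent.Run7.h810.Convert

open CategoryTheory MonoidalCategory CartesianMonoidalCategory

namespace Pool.Agent.Results.MP_1ee59b_ag.ForgetfulInjective

universe w v u

/-- For all `(g, n) ≠ (1, 0)` and all `d` there is a threshold `m₀` such that for all `m ≥ m₀` the
pullback `F_m^* : CH^d(𝔐_{g,n}) → CH^d(M̄_{g,n+m})` along the morphism that keeps the first `n`
markings and contracts nothing has trivial kernel. -/
theorem result {C : Type u} [Category.{v} C] [CartesianMonoidalCategory C]
    (T : PrestableChow.ChowTheory.{w} C) (P : PrestableChow.PrestableCurves T)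
    (g n : ℕ) (hgn : (g, n) ≠ (1, 0)) (d : ℕ) :
    ∃ m₀ : ℕ, ∀ m : ℕ, m₀ ≤ m → ∀ x : T.CH (P.M g n), T.IsCodim d x →
      T.res (P.F g (Nat.le_add_right n m)) x = 0 → x = 0 := by
  exact (Run7.h810.curves P).injective
    (fun g n h => ⟨Run7.h810.strat (P.stratification g n h)⟩) d g n hgn

end Pool.Agent.Results.MP_1ee59b_ag.ForgetfulInjective
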